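import Pool.Agent.H595R2.PR.Core
import Pool.Agent.NPC.Dec

set_option autoImplicit false

/-!
# The algorithm: rounds computable in polynomial time

The state is `(p, l, b, N, g)`. The rounds treat the numbers `l = 2, 3, …` with `l ^ e ≤ p` one after
the other: if `l` divides the part `N` of `p - 1` which is left, an `l`-th power nonresidue is searched
among `-1, 1, 2, 3, …`, and its power of order `l ^ v` is multiplied into `g`.
-/

namespace Pool.Agent.NPC.Q265PR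

open Pool.Agent.NPC Pool.Agent.H595R2.PR

/-- the test values `-1, 1, 2, 3, …` -/
def tv (p b : ℕ) : ℕ := if b = 0 then p - 1 else b

/-- one round -/
def stp (e : ℕ) (s : ℕ × ℕ × ℕ × ℕ × ℕ) : ℕ × ℕ × ℕ × ℕ × ℕ :=
  if s.1 < s.2.1 ^ e then s
  else if s.2.2.2.1 % s.2.1 = 0 then
    if pw s.1 (tv s.1 s.2.2.1) ((s.1 - 1) / s.2.1) = 1 then
      (s.1, s.2.1, s.2.2.1 + 1, s.2.2.2.1, s.2.2.2.2)
    else (s.1, s.2.1 + 1, 0, strip s.2.1 s.1.size s.2.2.2.1,
      md s.1 (s.2.2.2.2 * pw s.1 (tv s.1 s.2.2.1)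
        ((s.1 - 1) / (s.2.2.2.1 / strip s.2.1 s.1.size s.2.2.2.1))))
  else (s.1, s.2.1 + 1, 0, s.2.2.2.1, s.2.2.2.2)

/-- the initial state -/
def ini (p : ℕ) : ℕ × ℕ × ℕ × ℕ × ℕ := (p, 2, 0, p - 1, 1)

/-- the list which is put out -/
def outp (A C : ℕ) (s : ℕ × ℕ × ℕ × ℕ × ℕ) : List ℕ :=
  (List.range (s.1.size ^ C)).map fun a =>
    md s.1 (s.2.2.2.2 * pw s.1 (horner s.1 (s.1.size ^ A) a) ((s.1 - 1) / s.2.2.2.1))

section poly

variable {α : Type} [TEnc α]

theorem poly_pow {f : α → ℕ} (hf : Poly f) (e : ℕ) : Poly (fun a => f a ^ e) := by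
  induction e with
  | zero => exact (Poly.const 1).congr fun a => by rw [pow_zero]
  | succ e ih => exact (Poly.mul ih hf).congr fun a => by rw [pow_succ]

theorem poly_tv {p b : α → ℕ} (hp : Poly p) (hb : Poly b) : Poly (fun a => tv (p a) (b a)) :=
  Poly.ite (Poly.decide_eq hb (Poly.const 0)) (Poly.sub hp (Poly.const 1)) hb

end poly

theorem poly_ini : Poly ini :=
  Poly.pair Poly.id (Poly.pair (Poly.const 2) (Poly.pair (Poly.const 0)
    (Poly.pair (Poly.sub Poly.id (Poly.const 1)) (Poly.const 1))))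

theorem poly_stp (e : ℕ) : Poly (stp e) := by
  have hp : Poly (fun s : ℕ × ℕ × ℕ × ℕ × ℕ => s.1) := Poly.fst Poly.id
  have hl : Poly (fun s : ℕ × ℕ × ℕ × ℕ × ℕ => s.2.1) := Poly.fst (Poly.snd Poly.id)
  have hb : Poly (fun s : ℕ × ℕ × ℕ × ℕ × ℕ => s.2.2.1) := Poly.fst (Poly.snd (Poly.snd Poly.id))
  have hN : Poly (fun s : ℕ × ℕ × ℕ × ℕ × ℕ => s.2.2.2.1) :=
    Poly.fst (Poly.snd (Poly.snd (Poly.snd Poly.id)))
  have hg : Poly (fun s : ℕ × ℕ × ℕ × ℕ × ℕ => s.2.2.2.2) :=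
    Poly.snd (Poly.snd (Poly.snd (Poly.snd Poly.id)))
  have hsz : UPoly (fun s : ℕ × ℕ × ℕ × ℕ × ℕ => s.1.size) :=
    Pool.Agent.NPC.H595POL.upoly_size.comp hp
  have hst : Poly (fun s : ℕ × ℕ × ℕ × ℕ × ℕ => strip s.2.1 s.1.size s.2.2.2.1) :=
    Pool.Agent.NPC.H595POL.poly_strip hl hsz hN
  have hp1 : Poly (fun s : ℕ × ℕ × ℕ × ℕ × ℕ => s.1 - 1) := Poly.sub hp (Poly.const 1)
  have htv : Poly (fun s : ℕ × ℕ × ℕ × ℕ × ℕ => tv s.1 s.2.2.1) := poly_tv hp hb
  refine Poly.ite (Poly.decide_lt hp (poly_pow hl e)) Poly.id ?_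
  refine Poly.ite (Poly.decide_eq (Poly.mod hN hl) (Poly.const 0)) ?_ ?_
  · refine Poly.ite (Poly.decide_eq (Pool.Agent.NPC.H595POL.poly_pw hp htv (Poly.div hp1 hl))
      (Poly.const 1)) ?_ ?_
    · exact Poly.pair hp (Poly.pair hl (Poly.pair (Poly.succ hb) (Poly.pair hN hg)))
    · refine Poly.pair hp (Poly.pair (Poly.succ hl) (Poly.pair (Poly.const 0) (Poly.pair hst ?_)))
      exact Pool.Agent.NPC.H595POL.poly_md hp (Poly.mul hg
        (Pool.Agent.NPC.H595POL.poly_pw hp htv (Poly.div hp1 (Poly.div hN hst))))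
  · exact Poly.pair hp (Poly.pair (Poly.succ hl) (Poly.pair (Poly.const 0) (Poly.pair hN hg)))

theorem poly_outp (A C : ℕ) : Poly (outp A C) := by
  have hp : Poly (fun s : ℕ × ℕ × ℕ × ℕ × ℕ => s.1) := Poly.fst Poly.id
  refine Poly.map (l := fun s : ℕ × ℕ × ℕ × ℕ × ℕ => List.range (s.1.size ^ C))
    (F := fun s a => md s.1 (s.2.2.2.2 * pw s.1 (horner s.1 (s.1.size ^ A) a)
      ((s.1 - 1) / s.2.2.2.1))) ((Pool.Agent.NPC.H595POL.upoly_sizepow C).comp hp).range ?_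
  have hp' : Poly (fun q : (ℕ × ℕ × ℕ × ℕ × ℕ) × ℕ => q.1.1) := hp.comp (Poly.fst Poly.id)
  have hN' : Poly (fun q : (ℕ × ℕ × ℕ × ℕ × ℕ) × ℕ => q.1.2.2.2.1) :=
    Poly.fst (Poly.snd (Poly.snd (Poly.snd (Poly.fst Poly.id))))
  have hg' : Poly (fun q : (ℕ × ℕ × ℕ × ℕ × ℕ) × ℕ => q.1.2.2.2.2) :=
    Poly.snd (Poly.snd (Poly.snd (Poly.snd (Poly.fst Poly.id))))
  exact Pool.Agent.NPC.H595POL.poly_md hp' (Poly.mul hg' (Pool.Agent.NPC.H595POL.poly_pw hp'
    (Pool.Agent.NPC.H595POL.poly_horner hp' ((Pool.Agent.NPC.H595POL.upoly_sizepow A).comp hp')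
      (Poly.snd Poly.id)) (Poly.div (Poly.sub hp' (Poly.const 1)) hN')))

/-! ### on bit strings -/

/-- the initial state on bit strings -/
def iniB (x : List Bool) : List Bool := bits (ini (valB x))

/-- the rounds on bit strings -/
def stpB (e : ℕ) (x : List Bool) : List Bool :=
  match (unbits (ℕ × ℕ × ℕ × ℕ × ℕ) x).map (stp e) with
  | none => []
  | some b => bits b

/-- the output on bit strings -/
def outB (A C : ℕ) (x : List Bool) : List Bool :=
  match (unbits (ℕ × ℕ × ℕ × ℕ × ℕ) x).map (outp A C) with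
  | none => []
  | some b => bits b

theorem polyTime_iniB : PolyTime iniB := polyTime_bits (poly_ini.comp (Poly.valBits Poly.id))

theorem polyTime_stpB (e : ℕ) : PolyTime (stpB e) := by
  have h : Poly (fun x : List Bool => (unbits (ℕ × ℕ × ℕ × ℕ × ℕ) x).map (stp e)) :=
    Poly.optMap (f := fun _ a => stp e a) poly_unbits ((poly_stp e).comp (Poly.snd Poly.id))
  have h2 := polyTime_opt h
  convert h2 using 2 with x
  unfold stpB
  cases (unbits (ℕ × ℕ × ℕ × ℕ × ℕ) x).map (stp e) <;> rfl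

theorem polyTime_outB (A C : ℕ) : PolyTime (outB A C) := by
  have h : Poly (fun x : List Bool => (unbits (ℕ × ℕ × ℕ × ℕ × ℕ) x).map (outp A C)) :=
    Poly.optMap (f := fun _ a => outp A C a) poly_unbits ((poly_outp A C).comp (Poly.snd Poly.id))
  have h2 := polyTime_opt h
  convert h2 using 2 with x
  unfold outB
  cases (unbits (ℕ × ℕ × ℕ × ℕ × ℕ) x).map (outp A C) <;> rfl

theorem stpB_bits (e : ℕ) (s : ℕ × ℕ × ℕ × ℕ × ℕ) : stpB e (bits s) = bits (stp e s) := by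
  unfold stpB
  rw [unbits_bits]
  rfl

theorem outB_bits (A C : ℕ) (s : ℕ × ℕ × ℕ × ℕ × ℕ) : outB A C (bits s) = bits (outp A C s) := by
  unfold outB
  rw [unbits_bits]
  rfl

theorem iter_bits (e p : ℕ) (k : ℕ) :
    (stpB e)^[k] (iniB (Nat.bits p)) = bits ((stp e)^[k] (ini p)) := by
  induction k with
  | zero =>
    simp only [Function.iterate_zero, id]
    unfold iniB
    rw [valB_bits]
  | succ k ih => rw [Function.iterate_succ_apply', ih, stpB_bits, Function.iterate_succ_apply']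

/-! ### the states are short -/

theorem strip_le (l k N : ℕ) : strip l k N ≤ N := by
  unfold strip
  induction k generalizing N with
  | zero => exact le_rfl
  | succ k ih =>
    rw [Function.iterate_succ_apply]
    refine (ih _).trans ?_
    split_ifs
    · exact Nat.div_le_self _ _
    · exact le_rfl

theorem strip_pos (l k N : ℕ) (hN : 0 < N) : 0 < strip l k N := by
  unfold strip
  induction k generalizing N with
  | zero => exact hN
  | succ k ih =>
    rw [Function.iterate_succ_apply]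
    refine ih _ ?_
    split_ifs with h
    · have hd := Nat.dvd_of_mod_eq_zero h
      exact Nat.div_pos (Nat.le_of_dvd hN hd) (Nat.pos_of_dvd_of_pos hd hN)
    · exact hN

/-- the bounds for the entries of the state -/
def Bd (p : ℕ) (s : ℕ × ℕ × ℕ × ℕ × ℕ) : Prop :=
  s.1 = p ∧ 2 ≤ s.2.1 ∧ s.2.1 ≤ p + 1 ∧ s.2.2.1 ≤ p ∧ 1 ≤ s.2.2.2.1 ∧ s.2.2.2.1 ≤ p - 1 ∧
    s.2.2.2.2 ≤ p

theorem bd_ini {p : ℕ} (hp : 2 ≤ p) : Bd p (ini p) := by
  refine ⟨rfl, le_rfl, ?_, Nat.zero_le _, ?_, le_rfl, ?_⟩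
  · show 2 ≤ p + 1
    omega
  · show 1 ≤ p - 1
    omega
  · show 1 ≤ p
    omega

theorem bd_stp {p e : ℕ} (hp : 2 ≤ p) (he : 1 ≤ e) (s : ℕ × ℕ × ℕ × ℕ × ℕ) (hs : Bd p s) :
    Bd p (stp e s) := by
  obtain ⟨p', l, b, N, g⟩ := s
  obtain ⟨h1, h2, h3, h4, h5, h6, h7⟩ := hs
  simp only at h1 h2 h3 h4 h5 h6 h7
  subst h1
  unfold stp
  simp only
  split_ifs with c1 c2 c3
  · exact ⟨rfl, h2, h3, h4, h5, h6, h7⟩
  · -- b + 1
    refine ⟨rfl, h2, h3, ?_, h5, h6, h7⟩
    show b + 1 ≤ p'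
    by_contra hc
    have hb : b = p' := by omega
    have hl : l ≤ N := Nat.le_of_dvd (by omega) (Nat.dvd_of_mod_eq_zero c2)
    have hpos : 0 < (p' - 1) / l := Nat.div_pos (by omega) (by omega)
    rw [hb, pw_eq] at c3
    have h8 : tv p' p' = p' := by
      unfold tv
      rw [if_neg (by omega)]
    rw [h8] at c3
    unfold md at c3
    rw [max_eq_left (by omega)] at c3
    have h9 : p' ^ ((p' - 1) / l) % p' = 0 := by
      apply Nat.mod_eq_zero_of_dvd
      exact dvd_pow_self _ (by omega)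
    omega
  · have hl : l ≤ p' := by
      have h8 : l ^ 1 ≤ l ^ e := Nat.pow_le_pow_right (by omega) he
      rw [pow_one] at h8
      omega
    refine ⟨rfl, ?_, ?_, Nat.zero_le _, strip_pos _ _ _ h5, (strip_le _ _ _).trans h6, ?_⟩
    · show 2 ≤ l + 1
      omega
    · show l + 1 ≤ p' + 1
      omega
    · refine (Pool.Agent.NPC.H595POL.md_le _ _).trans ?_
      rw [max_eq_left (by omega)]
  · have hl : l ≤ p' := by
      have h8 : l ^ 1 ≤ l ^ e := Nat.pow_le_pow_right (by omega) he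
      rw [pow_one] at h8
      omega
    refine ⟨rfl, ?_, ?_, Nat.zero_le _, h5, h6, h7⟩
    · show 2 ≤ l + 1
      omega
    · show l + 1 ≤ p' + 1
      omega

theorem bd_iter {p e : ℕ} (hp : 2 ≤ p) (he : 1 ≤ e) (k : ℕ) : Bd p ((stp e)^[k] (ini p)) := by
  induction k with
  | zero => exact bd_ini hp
  | succ k ih =>
    rw [Function.iterate_succ_apply']
    exact bd_stp hp he _ ih

theorem size_add_one_le {p : ℕ} : (p + 1).size ≤ p.size + 1 := by
  rw [Nat.size_le, pow_succ]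
  have := Nat.lt_size_self p
  omega

theorem len_iter {p e : ℕ} (hp : 2 ≤ p) (he : 1 ≤ e) (k : ℕ) :
    ((stpB e)^[k] (iniB (Nat.bits p))).length ≤ 40 * p.size := by
  rw [iter_bits, bits_length]
  have hb := bd_iter hp he k
  generalize (stp e)^[k] (ini p) = s at hb
  obtain ⟨p', l, b, N, g⟩ := s
  obtain ⟨h1, h2, h3, h4, h5, h6, h7⟩ := hb
  simp only at h1 h2 h3 h4 h5 h6 h7
  simp only [sz_pair]
  have e1 := sz_nat_le p'
  have e2 := sz_nat_le l
  have e3 := sz_nat_le b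
  have e4 := sz_nat_le N
  have e5 := sz_nat_le g
  have f1 : p'.size ≤ p.size := Nat.size_le_size (by omega)
  have f2 : l.size ≤ p.size + 1 := (Nat.size_le_size h3).trans size_add_one_le
  have f3 : b.size ≤ p.size := Nat.size_le_size h4
  have f4 : N.size ≤ p.size := Nat.size_le_size (by omega)
  have f5 : g.size ≤ p.size := Nat.size_le_size h7
  have f6 : 2 ≤ p.size := by
    have : 1 < p.size := Nat.lt_size.2 (by omega)
    omega
  omega

end Pool.Agent.NPC.Q265PR
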