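import Pool.Agent.Q265.PR.A

set_option autoImplicit false

/-! # The run of the algorithm -/

namespace Pool.Agent.NPC.Q265PR

open Pool.Agent.NPC Pool.Agent.H595R2.PR Finset

/-- the invariant: `N` is the part of `p - 1` with the prime factors `≥ l`, and `g` has the order
`(p - 1) / N` -/
structure Inv (p l N g : ℕ) : Prop where
  dv : N ∣ p - 1
  co : Nat.Coprime N ((p - 1) / N)
  ge : ∀ q : ℕ, q.Prime → q ∣ N → l ≤ q
  od : orderOf (g : ZMod p) = (p - 1) / N

theorem inv_ini {p : ℕ} (hp : p.Prime) : Inv p 2 (p - 1) 1 := by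
  have h1 : 0 < p - 1 := by have := hp.two_le; omega
  refine ⟨dvd_rfl, ?_, fun q hq _ => hq.two_le, ?_⟩
  · rw [Nat.div_self h1]
    exact Nat.coprime_one_right _
  · rw [Nat.div_self h1, Nat.cast_one, orderOf_one]

/-- the hypothesis on the nonresidues -/
def Has (p e y : ℕ) : Prop :=
  ∀ l : ℕ, l.Prime → l ∣ p - 1 → l ^ e ≤ p →
    ∃ b : ℕ, b ≤ y ∧ ((tv p b : ℕ) : ZMod p) ^ ((p - 1) / l) ≠ 1

theorem tv_ne {p b : ℕ} (hp : p.Prime) (hb : b < p) : ((tv p b : ℕ) : ZMod p) ≠ 0 := by
  intro h
  rw [ZMod.natCast_eq_zero_iff] at h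
  unfold tv at h
  have h2 := hp.two_le
  split_ifs at h with h0
  · have := Nat.le_of_dvd (by omega) h
    omega
  · have := Nat.le_of_dvd (by omega) h
    omega

theorem pw_one_iff {p : ℕ} [Fact p.Prime] (x k : ℕ) : pw p x k = 1 ↔ (x : ZMod p) ^ k = 1 := by
  have hp : p.Prime := Fact.out
  have h1 : (1 : ℕ) < p := hp.one_lt
  rw [cor_inj (cor_pw_lt x k) h1, cor_pw, Nat.cast_one]

/-- the search for a nonresidue -/
theorem search {p e l N g : ℕ} [Fact p.Prime] (hl : l ^ e ≤ p) (hN : N % l = 0) (β : ℕ)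
    (hβ : ∀ b < β, ((tv p b : ℕ) : ZMod p) ^ ((p - 1) / l) = 1) (k : ℕ) (hk : k ≤ β) :
    (stp e)^[k] (p, l, 0, N, g) = (p, l, k, N, g) := by
  induction k with
  | zero => rfl
  | succ k ih =>
    rw [Function.iterate_succ_apply', ih (by omega)]
    unfold stp
    simp only
    rw [if_neg (by omega), if_pos hN, if_pos ((pw_one_iff _ _).2 (hβ k (by omega)))]

/-- one value of `l` -/
theorem phase {p e y l N g : ℕ} [Fact p.Prime] (hy : y < p) (h2 : 2 ≤ l) (hl : l ^ e ≤ p)
    (hH : Has p e y) (hI : Inv p l N g) :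
    ∃ τ N' g' : ℕ, (stp e)^[τ] (p, l, 0, N, g) = (p, l + 1, 0, N', g') ∧ Inv p (l + 1) N' g' ∧
      τ + y * #N'.primeFactors ≤ 1 + y * #N.primeFactors := by
  have hp : p.Prime := Fact.out
  have hp1 : 0 < p - 1 := by have := hp.two_le; omega
  have hN0 : 0 < N := Nat.pos_of_dvd_of_pos hI.dv hp1
  by_cases hd : N % l = 0
  · have hlN : l ∣ N := Nat.dvd_of_mod_eq_zero hd
    -- `l` is prime
    have hlp : l.Prime := by
      have h3 := Nat.minFac_prime (show l ≠ 1 by omega)
      have h4 := hI.ge _ h3 ((Nat.minFac_dvd l).trans hlN)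
      have h5 := Nat.minFac_le (show 0 < l by omega)
      have h6 : l.minFac = l := le_antisymm h5 h4
      rw [← h6]
      exact h3
    have hlp1 : l ∣ p - 1 := hlN.trans hI.dv
    -- the least test value
    classical
    have hex : ∃ b : ℕ, ((tv p b : ℕ) : ZMod p) ^ ((p - 1) / l) ≠ 1 := by
      obtain ⟨b, -, hb⟩ := hH l hlp hlp1 hl
      exact ⟨b, hb⟩
    set β := Nat.find hex with hβdef
    have hβ1 : ((tv p β : ℕ) : ZMod p) ^ ((p - 1) / l) ≠ 1 := Nat.find_spec hex
    have hβ2 : ∀ b < β, ((tv p b : ℕ) : ZMod p) ^ ((p - 1) / l) = 1 := by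
      intro b hb
      by_contra hc
      exact Nat.find_min hex hb hc
    have hβy : β ≤ y := by
      obtain ⟨b, hb1, hb2⟩ := hH l hlp hlp1 hl
      exact (Nat.find_min' hex hb2).trans hb1
    have hne : ((tv p β : ℕ) : ZMod p) ≠ 0 := tv_ne hp (by omega)
    have hs := search (g := g) hl hd β hβ2 β le_rfl
    -- the next state
    set N' := strip l p.size N with hN'
    set a := N.factorization l with ha
    have hNp : N < 2 ^ p.size := by
      have h3 := Nat.le_of_dvd hp1 hI.dv
      have h4 := Nat.lt_size_self p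
      omega
    have hN'e : N' = N / l ^ a := strip_eq hlp hN0 hNp
    have ha1 : 1 ≤ a := hlp.factorization_pos_of_dvd hN0.ne' hlN
    have hlaN : l ^ a ∣ N := Nat.ordProj_dvd N l
    have hNeq : N = l ^ a * N' := by rw [hN'e, Nat.mul_div_cancel' hlaN]
    have hN'0 : 0 < N' := by
      rw [hN'e]
      exact Nat.div_pos (Nat.le_of_dvd hN0 hlaN) (pow_pos hlp.pos _)
    have hlN' : ¬ l ∣ N' := by
      rw [hN'e]
      exact Nat.not_dvd_ordCompl hlp hN0.ne'
    have hNN' : N / N' = l ^ a := by
      rw [hNeq, Nat.mul_div_cancel _ hN'0]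
    set g' := md p (g * pw p (tv p β) ((p - 1) / (N / N'))) with hg'
    have hlast : stp e (p, l, β, N, g) = (p, l + 1, 0, N', g') := by
      unfold stp
      simp only
      rw [if_neg (by omega), if_pos hd, if_neg (fun h => hβ1 ((pw_one_iff _ _).1 h))]
    refine ⟨β + 1, N', g', ?_, ?_, ?_⟩
    · rw [Function.iterate_succ_apply', hs, hlast]
    · -- invariant
      set M := (p - 1) / N with hM
      have hMN : p - 1 = N * M := by rw [hM, Nat.mul_div_cancel' hI.dv]
      have hM' : (p - 1) / N' = l ^ a * M := by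
        rw [hMN, hNeq, show l ^ a * N' * M = N' * (l ^ a * M) by ring,
          Nat.mul_div_cancel_left _ hN'0]
      have hcoM : Nat.Coprime (l ^ a) M := by
        have h3 : Nat.Coprime N M := hI.co
        rw [hNeq] at h3
        exact Nat.Coprime.coprime_mul_right h3
      refine ⟨?_, ?_, ?_, ?_⟩
      · refine Dvd.dvd.trans ?_ hI.dv
        rw [hNeq]
        exact Dvd.intro_left _ rfl
      · rw [hM']
        refine Nat.Coprime.mul_right ?_ ?_
        · exact Nat.Coprime.pow_right _ ((Nat.Prime.coprime_iff_not_dvd hlp).2 hlN').symm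
        · have h3 : Nat.Coprime N M := hI.co
          rw [hNeq] at h3
          exact Nat.Coprime.coprime_mul_left h3
      · intro q hq hqN'
        have h3 : l ≤ q := hI.ge q hq (hqN'.trans (by rw [hNeq]; exact Dvd.intro_left _ rfl))
        have h4 : q ≠ l := by
          rintro rfl
          exact hlN' hqN'
        omega
      · rw [hM', hg', cor_md, Nat.cast_mul, cor_pw, hNN']
        have hdvd : l ^ a ∣ p - 1 := hlaN.trans hI.dv
        have hordx : orderOf (((tv p β : ℕ) : ZMod p) ^ ((p - 1) / l ^ a)) = l ^ a := by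
          obtain ⟨a', ha'⟩ : ∃ a', a = a' + 1 := ⟨a - 1, by omega⟩
          have : Fact l.Prime := ⟨hlp⟩
          rw [ha']
          apply orderOf_eq_prime_pow
          · rw [← pow_mul]
            have h3 : (p - 1) / l ^ (a' + 1) * l ^ a' = (p - 1) / l := by
              obtain ⟨k, hk⟩ := hdvd
              rw [ha'] at hk
              rw [hk, Nat.mul_div_cancel_left _ (pow_pos hlp.pos _), pow_succ,
                show l ^ a' * l * k = l * (k * l ^ a') by ring, Nat.mul_div_cancel_left _ hlp.pos]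
            rw [h3]
            exact hβ1
          · rw [← pow_mul]
            rw [ha'] at hdvd
            rw [Nat.div_mul_cancel hdvd]
            exact ZMod.pow_card_sub_one_eq_one hne
        have hordg : orderOf (g : ZMod p) = M := hI.od
        have hco2 : Nat.Coprime (orderOf (g : ZMod p))
            (orderOf (((tv p β : ℕ) : ZMod p) ^ ((p - 1) / l ^ a))) := by
          rw [hordx, hordg]
          exact hcoM.symm
        rw [(Commute.all _ _).orderOf_mul_eq_mul_orderOf_of_coprime hco2, hordx, hordg, mul_comm]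
    · -- time
      have hsub : N'.primeFactors ⊆ N.primeFactors.erase l := by
        intro q hq
        rw [Nat.mem_primeFactors] at hq
        rw [mem_erase, Nat.mem_primeFactors]
        refine ⟨?_, hq.1, hq.2.1.trans (by rw [hNeq]; exact Dvd.intro_left _ rfl), hN0.ne'⟩
        rintro rfl
        exact hlN' hq.2.1
      have hmem : l ∈ N.primeFactors := Nat.mem_primeFactors.2 ⟨hlp, hlN, hN0.ne'⟩
      have h3 := card_le_card hsub
      rw [card_erase_of_mem hmem] at h3
      have h4 : 0 < #N.primeFactors := card_pos.2 ⟨l, hmem⟩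
      obtain ⟨w, hw⟩ : ∃ w, #N.primeFactors = w + 1 := ⟨#N.primeFactors - 1, by omega⟩
      rw [hw] at h3 ⊢
      have h5 : y * #N'.primeFactors ≤ y * w := Nat.mul_le_mul_left _ (by omega)
      calc β + 1 + y * #N'.primeFactors ≤ y + 1 + y * w := by omega
        _ = 1 + y * (w + 1) := by ring
  · refine ⟨1, N, g, ?_, ⟨hI.dv, hI.co, ?_, hI.od⟩, le_rfl⟩
    · rw [Function.iterate_one]
      unfold stp
      simp only
      rw [if_neg (by omega), if_neg hd]
    · intro q hq hqN
      have h3 := hI.ge q hq hqN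
      have h4 : q ≠ l := by
        rintro rfl
        exact hd (Nat.mod_eq_zero_of_dvd hqN)
      omega

/-- all values below `2 + j` -/
theorem run {p e y : ℕ} [Fact p.Prime] (hy : y < p) (hH : Has p e y) (j : ℕ)
    (hj : ∀ i < j, (2 + i) ^ e ≤ p) :
    ∃ τ N g : ℕ, (stp e)^[τ] (ini p) = (p, 2 + j, 0, N, g) ∧ Inv p (2 + j) N g ∧
      τ + y * #N.primeFactors ≤ j + y * #(p - 1).primeFactors := by
  have hp : p.Prime := Fact.out
  induction j with
  | zero => exact ⟨0, p - 1, 1, rfl, inv_ini hp, le_rfl⟩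
  | succ j ih =>
    obtain ⟨τ, N, g, h1, h2, h3⟩ := ih fun i hi => hj i (by omega)
    obtain ⟨τ', N', g', h4, h5, h6⟩ := phase hy (by omega) (hj j (by omega)) hH h2
    refine ⟨τ' + τ, N', g', ?_, h5, by omega⟩
    rw [Function.iterate_add_apply, h1, h4]
    rfl

theorem stp_fix {p e l b N g : ℕ} (h : p < l ^ e) (k : ℕ) :
    (stp e)^[k] (p, l, b, N, g) = (p, l, b, N, g) := by
  induction k with
  | zero => rfl
  | succ k ih =>
    rw [Function.iterate_succ_apply', ih]
    unfold stp
    simp only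
    rw [if_pos h]

/-- the final state -/
theorem final {p e y : ℕ} [Fact p.Prime] (hy : y < p) (hH : Has p e y) (R : ℕ)
    (hR : p < (R + 2) ^ e) (T : ℕ) (hT : R + y * p.size ≤ T) :
    ∃ l N g : ℕ, (stp e)^[T] (ini p) = (p, l, 0, N, g) ∧ Inv p l N g ∧ p < l ^ e := by
  have hp : p.Prime := Fact.out
  classical
  have hex : ∃ j : ℕ, p < (2 + j) ^ e := ⟨R, by rwa [add_comm]⟩
  set j := Nat.find hex with hj
  have hj1 : p < (2 + j) ^ e := Nat.find_spec hex
  have hj2 : ∀ i < j, (2 + i) ^ e ≤ p := fun i hi => not_lt.1 (Nat.find_min hex hi)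
  have hjR : j ≤ R := Nat.find_min' hex (by rwa [add_comm])
  obtain ⟨τ, N, g, h1, h2, h3⟩ := run hy hH j hj2
  have h4 : #(p - 1).primeFactors ≤ p.size := by
    refine card_primeFactors_le (by have := hp.two_le; omega) ?_
    have := Nat.lt_size_self p
    omega
  have h5 : y * #(p - 1).primeFactors ≤ y * p.size := Nat.mul_le_mul_left _ h4
  refine ⟨2 + j, N, g, ?_, h2, hj1⟩
  obtain ⟨r, hr⟩ : ∃ r, T = r + τ := ⟨T - τ, by omega⟩
  rw [hr, Function.iterate_add_apply, h1, stp_fix hj1]

open Classical in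
/-- few bad entries of the final list -/
theorem few {p e A C : ℕ} [Fact p.Prime] (hY : p.size ^ A < p) {l N g : ℕ} (hI : Inv p l N g)
    (hl : p < l ^ e) (hC : (p.size ^ C) ^ e ≤ p)
    (hidx : ((p - 1) / Nat.card (Gam p (p.size ^ A))) ^ e ≤ p) :
    #{i ∈ range (p.size ^ C) | orderOf (((outp A C (p, l, 0, N, g)).getD i 0 : ℕ) : ZMod p) ≠
      p - 1} ≤ p.size ^ A * p.size := by
  have hp : p.Prime := Fact.out
  have hp1 : 0 < p - 1 := by have := hp.two_le; omega
  have hN0 : 0 < N := Nat.pos_of_dvd_of_pos hI.dv hp1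
  set Y := p.size ^ A with hYdef
  set L := p.size ^ C with hLdef
  have hcard : Nat.card (ZMod p)ˣ = p - 1 := by
    rw [Nat.card_eq_fintype_card, ZMod.card_units]
  have hGam : Gam p Y = Subgroup.closure (cort p '' Set.Iio Y) := by
    unfold Gam
    congr 1
    ext u
    constructor
    · rintro ⟨i, hi, hu⟩
      exact ⟨i, hi, Units.ext (by rw [cort_val hY hi, hu])⟩
    · rintro ⟨i, hi, rfl⟩
      exact ⟨i, hi, cort_val hY hi⟩
  set M := (p - 1) / N with hM
  have hMN : p - 1 = N * M := by rw [hM, Nat.mul_div_cancel' hI.dv]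
  have hM0 : 0 < M := by
    rcases Nat.eq_zero_or_pos M with h | h
    · rw [h, mul_zero] at hMN
      omega
    · exact h
  -- the prime factors of N are large
  have hbig : ∀ q : ℕ, q.Prime → q ∣ N → p < q ^ e := fun q hq hqN =>
    lt_of_lt_of_le hl (Nat.pow_le_pow_left (hI.ge q hq hqN) e)
  have hLq : ∀ q : ℕ, q.Prime → q ∣ N → L < q := by
    intro q hq hqN
    by_contra hc
    have h1 := Nat.pow_le_pow_left (not_lt.1 hc) e
    have h2 := hbig q hq hqN
    omega
  have hsub : (range L).filter (fun i => orderOf (((outp A C (p, l, 0, N, g)).getD i 0 : ℕ) :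
      ZMod p) ≠ p - 1) ⊆ N.primeFactors.biUnion (fun q =>
        {a ∈ range L | ∏ i ∈ range Y, (cort p i ^ ((p - 1) / q)) ^ (a ^ i) = 1}) := by
    intro a ha
    rw [mem_filter] at ha
    obtain ⟨haL, hne⟩ := ha
    by_contra hcon
    apply hne
    have hval : (((outp A C (p, l, 0, N, g)).getD a 0 : ℕ) : ZMod p) =
        (g : ZMod p) * (((∏ i ∈ range Y, cort p i ^ (a ^ i)) ^ M : (ZMod p)ˣ) : ZMod p) := by
      have e1 : (outp A C (p, l, 0, N, g)).getD a 0 =
          md p (g * pw p (horner p Y a) M) := by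
        unfold outp
        simp only
        rw [List.getD_eq_getElem?_getD, List.getElem?_map,
          List.getElem?_range (by simpa using haL)]
        rfl
      rw [e1, cor_md, Nat.cast_mul, cor_pw, cor_horner, Units.val_pow_eq_pow_val, Units.coe_prod]
      congr 2
      apply prod_congr rfl
      intro i hi
      rw [Units.val_pow_eq_pow_val, cort_val hY (mem_range.1 hi)]
    have hx : orderOf ((∏ i ∈ range Y, cort p i ^ (a ^ i)) ^ M) = N := by
      refine orderOf_eq_of_pow_and_pow_div_prime hN0 ?_ ?_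
      · rw [← pow_mul, mul_comm M N, ← hMN, ← hcard]
        exact pow_card_eq_one'
      · intro q hq hqN hbad
        apply hcon
        rw [mem_biUnion]
        refine ⟨q, Nat.mem_primeFactors.2 ⟨hq, hqN, hN0.ne'⟩, mem_filter.2 ⟨haL, ?_⟩⟩
        rw [← pow_mul] at hbad
        have e2 : M * (N / q) = (p - 1) / q := by
          rw [hMN, mul_comm N M, Nat.mul_div_assoc _ hqN]
        rw [e2, ← prod_pow] at hbad
        rw [← hbad]
        refine prod_congr rfl fun i _ => ?_
        rw [← pow_mul, ← pow_mul, mul_comm]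
    rw [hval]
    have hx2 : orderOf ((((∏ i ∈ range Y, cort p i ^ (a ^ i)) ^ M : (ZMod p)ˣ)) : ZMod p) = N := by
      rw [orderOf_units, hx]
    have hg2 : orderOf (g : ZMod p) = M := hI.od
    have hco : Nat.Coprime (orderOf (g : ZMod p))
        (orderOf ((((∏ i ∈ range Y, cort p i ^ (a ^ i)) ^ M : (ZMod p)ˣ)) : ZMod p)) := by
      rw [hx2, hg2]
      exact hI.co.symm
    rw [(Commute.all _ _).orderOf_mul_eq_mul_orderOf_of_coprime hco, hx2, hg2, hMN, mul_comm]
  refine (card_le_card hsub).trans (card_biUnion_le.trans ?_)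
  have hω : #N.primeFactors ≤ p.size := by
    refine card_primeFactors_le hN0 ?_
    have h1 := Nat.le_of_dvd hp1 hI.dv
    have := Nat.lt_size_self p
    omega
  have hone : ∀ q ∈ N.primeFactors,
      #{a ∈ range L | ∏ i ∈ range Y, (cort p i ^ ((p - 1) / q)) ^ (a ^ i) = 1} ≤ Y := by
    intro q hq
    rw [Nat.mem_primeFactors] at hq
    obtain ⟨hqp, hqN, -⟩ := hq
    have hqp1 : q ∣ p - 1 := hqN.trans hI.dv
    have hz : ∀ i < Y, (cort p i ^ ((p - 1) / q)) ^ q = 1 := by
      intro i _
      rw [← pow_mul, Nat.div_mul_cancel hqp1, ← hcard]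
      exact pow_card_eq_one'
    have hz1 : ∃ i < Y, cort p i ^ ((p - 1) / q) ≠ 1 := by
      by_contra hcon
      push Not at hcon
      have h1 := ALG_dvd (Gam p Y) (ALG_closure (Gam p Y) hGam hcon)
      set D := Nat.card (Gam p Y) with hD
      have hD0 : 0 < D := Nat.card_pos
      have hDp : D ∣ p - 1 := by
        rw [← hcard]
        exact Subgroup.card_subgroup_dvd_card _
      obtain ⟨m, hm⟩ := hDp
      have hm2 : (p - 1) / D = m := by rw [hm, Nat.mul_div_cancel_left _ hD0]
      rw [hm2] at hidx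
      have hqm : q ∣ m := by
        obtain ⟨c, hc⟩ := h1
        have h2 : q * ((p - 1) / q) = p - 1 := Nat.mul_div_cancel' hqp1
        rw [hc, hm] at h2
        have h3 : D * (q * c) = D * m := by
          rw [← h2]
          ring
        exact ⟨c, (Nat.eq_of_mul_eq_mul_left hD0 h3).symm⟩
      have hm0 : 0 < m := by
        rcases Nat.eq_zero_or_pos m with h | h
        · rw [h, mul_zero] at hm
          omega
        · exact h
      have h4 := Nat.pow_le_pow_left (Nat.le_of_dvd hm0 hqm) e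
      have h5 := hbig q hqp hqN
      omega
    have h0 := ALG_bad (m := Y) hqp (hLq q hqp hqN) (fun i => cort p i ^ ((p - 1) / q)) hz hz1
    refine le_trans (le_of_eq ?_) (h0.trans (Nat.sub_le _ _))
    congr 1
    ext a
    simp only [mem_filter]
  calc ∑ q ∈ N.primeFactors, #{a ∈ range L | ∏ i ∈ range Y, (cort p i ^ ((p - 1) / q)) ^ (a ^ i) = 1}
      ≤ ∑ _q ∈ N.primeFactors, Y := sum_le_sum hone
    _ = #N.primeFactors * Y := by rw [sum_const, smul_eq_mul]
    _ ≤ p.size * Y := Nat.mul_le_mul_right _ hω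
    _ = Y * p.size := mul_comm _ _

end Pool.Agent.NPC.Q265PR
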