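import Pool.Agent.Y165.HN.Burg
import Pool.Agent.H471R4.BW.SMO

set_option autoImplicit false

/-! # Small power nonresidues -/

namespace Pool.Agent.Q265.PR

open Finset Pool.Agent.H471R4.BW

theorem exists_chi (p l : ℕ) [Fact p.Prime] (hl : l.Prime) (hd : l ∣ p - 1) :
    ∃ χ : DirichletCharacter ℂ p, orderOf χ = l := by
  have hc : l ∣ Fintype.card (ZMod p) - 1 := by rw [ZMod.card]; exact hd
  exact MulChar.exists_mulChar_orderOf (ZMod p) hc (Complex.isPrimitiveRoot_exp l hl.ne_zero)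

theorem root_of (p l : ℕ) [Fact p.Prime] (hl : l.Prime) (hd : l ∣ p - 1) (x : ZMod p)
    (hx : x ^ ((p - 1) / l) = 1) : ∃ c : ZMod p, c ≠ 0 ∧ c ^ l = x := by
  have hp : p.Prime := Fact.out
  have hp1 : 0 < p - 1 := by have := hp.two_le; omega
  obtain ⟨m, hm⟩ := hd
  have hm2 : (p - 1) / l = m := by rw [hm, Nat.mul_div_cancel_left _ hl.pos]
  rw [hm2] at hx
  have hm0 : 0 < m := by
    rcases Nat.eq_zero_or_pos m with h | h
    · rw [h, mul_zero] at hm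
      omega
    · exact h
  have hx0 : x ≠ 0 := by
    rintro rfl
    rw [zero_pow hm0.ne'] at hx
    exact zero_ne_one hx
  obtain ⟨g, hg⟩ := IsCyclic.exists_generator (α := (ZMod p)ˣ)
  have hg2 : orderOf g = p - 1 := by
    rw [orderOf_eq_card_of_forall_mem_zpowers hg, Nat.card_eq_fintype_card, ZMod.card_units]
  obtain ⟨k, hk⟩ := (mem_powers_iff_mem_zpowers.2 (hg (Units.mk0 x hx0)))
  simp only at hk
  have h1 : g ^ (k * m) = 1 := by
    rw [pow_mul, hk]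
    apply Units.ext
    rw [Units.val_pow_eq_pow_val, Units.val_mk0, hx, Units.val_one]
  have h2 := orderOf_dvd_of_pow_eq_one h1
  rw [hg2, hm] at h2
  obtain ⟨j, hj⟩ := Nat.dvd_of_mul_dvd_mul_right hm0 h2
  refine ⟨((g ^ j : (ZMod p)ˣ) : ZMod p), Units.ne_zero _, ?_⟩
  rw [← Units.val_pow_eq_pow_val, ← pow_mul, mul_comm j l, ← hj, hk, Units.val_mk0]

theorem chi_one (p l : ℕ) [Fact p.Prime] (hl : l.Prime) (hd : l ∣ p - 1)
    (χ : DirichletCharacter ℂ p) (hχ : χ ^ l = 1) (x : ZMod p) (hx : x ^ ((p - 1) / l) = 1) :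
    χ x = 1 := by
  obtain ⟨c, hc0, rfl⟩ := root_of p l hl hd x hx
  rw [map_pow, ← MulChar.pow_apply' χ hl.ne_zero, hχ]
  exact MulChar.one_apply (Ne.isUnit hc0)

/-- Burgess and Vinogradov -/
theorem least_all (ε : ℝ) (hε : 0 < ε) : ∃ p₀ : ℕ, ∀ p : ℕ, p₀ ≤ p → p.Prime →
    ∀ l : ℕ, l.Prime → l ∣ p - 1 → ∃ b : ℕ, 1 ≤ b ∧
      (b : ℝ) ≤ (p : ℝ) ^ (1 / (4 * Real.exp (1 / 2)) + ε) ∧ ((b : ℕ) : ZMod p) ^ ((p - 1) / l) ≠ 1 := by
  obtain ⟨q0, hq0⟩ := Pool.Agent.Y165.HN.burg (ε / 2) (by positivity)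
  have hev := (tendsto_rpow_atTop (show 0 < ε / 2 by positivity)).comp
    tendsto_natCast_atTop_atTop |>.eventually_ge_atTop (3 : ℝ)
  obtain ⟨p1, hp1⟩ := Filter.eventually_atTop.1 hev
  refine ⟨max q0 (max p1 1), fun p hp hpp l hl hd => ?_⟩
  have hpq0 : q0 ≤ p := (le_max_left _ _).trans hp
  have hpp1 : p1 ≤ p := ((le_max_left _ _).trans (le_max_right _ _)).trans hp
  have : Fact p.Prime := ⟨hpp⟩
  by_contra hcon
  push Not at hcon
  obtain ⟨χ, hχ⟩ := exists_chi p l hl hd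
  have hχ1 : χ ≠ 1 := by
    intro h
    rw [h, orderOf_one] at hχ
    exact hl.one_lt.ne hχ
  have hχl : χ ^ l = 1 := by rw [← hχ]; exact pow_orderOf_eq_one χ
  have h1 := hq0 p hpq0 hpp χ hχ1 ⌊(p : ℝ) ^ (1 / (4 * Real.exp (1 / 2)) + ε)⌋₊ (by
    intro q hq hqy
    refine chi_one p l hl hd χ hχl _ (hcon q hq.one_lt.le ?_)
    exact (Nat.cast_le.2 hqy).trans (Nat.floor_le (by positivity)))
  have h2 := Nat.lt_floor_add_one ((p : ℝ) ^ (1 / (4 * Real.exp (1 / 2)) + ε))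
  have hppos : (0 : ℝ) < p := by exact_mod_cast hpp.pos
  have hp1r : (1 : ℝ) ≤ p := by exact_mod_cast hpp.one_lt.le
  have h3 : (p : ℝ) ^ (1 / (4 * Real.exp (1 / 2)) + ε) =
      (p : ℝ) ^ (1 / (4 * Real.exp (1 / 2)) + ε / 2) * (p : ℝ) ^ (ε / 2) := by
    rw [← Real.rpow_add hppos]
    congr 1
    ring
  have h4 : (1 : ℝ) ≤ (p : ℝ) ^ (1 / (4 * Real.exp (1 / 2)) + ε / 2) :=
    Real.one_le_rpow hp1r (by positivity)
  have h5 : (3 : ℝ) ≤ (p : ℝ) ^ (ε / 2) := hp1 p hpp1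
  rw [h3] at h1 h2
  nlinarith

/-- the number of `m ≤ X` with `χ m = 1` -/
theorem count_one (p l X : ℕ) [Fact p.Prime] (hl : l.Prime) (hX : X < p)
    (χ : DirichletCharacter ℂ p) (hχ : orderOf χ = l) (δ : ℝ)
    (hs : ∀ ψ : DirichletCharacter ℂ p, ψ ≠ 1 → ‖shortSum p ψ X‖ ≤ δ * X) (hδ : 0 ≤ δ) :
    (l : ℝ) * #{m ∈ Icc 1 X | χ ((m : ℕ) : ZMod p) = 1} ≤ X + l * (δ * X) := by
  have hχl : χ ^ l = 1 := by rw [← hχ]; exact pow_orderOf_eq_one χ
  have hval : ∀ m ∈ Icc 1 X, χ ((m : ℕ) : ZMod p) ^ l = 1 := by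
    intro m hm
    rw [mem_Icc] at hm
    rw [← MulChar.pow_apply' χ hl.ne_zero, hχl]
    apply MulChar.one_apply
    apply Ne.isUnit
    rw [Ne, ZMod.natCast_eq_zero_iff]
    intro h
    have := Nat.le_of_dvd (by omega) h
    omega
  have hgeo : ∀ m ∈ Icc 1 X, (∑ j ∈ range l, χ ((m : ℕ) : ZMod p) ^ j) =
      if χ ((m : ℕ) : ZMod p) = 1 then (l : ℂ) else 0 := by
    intro m hm
    split_ifs with h
    · rw [h]
      simp
    · have h1 := mul_neg_geom_sum (χ ((m : ℕ) : ZMod p)) l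
      rw [hval m hm, sub_self] at h1
      rcases mul_eq_zero.1 h1 with h2 | h2
      · exact absurd (sub_eq_zero.1 h2).symm h
      · exact h2
  have h1 : ((l : ℝ) * #{m ∈ Icc 1 X | χ ((m : ℕ) : ZMod p) = 1} : ℂ) =
      ∑ j ∈ range l, ∑ m ∈ Icc 1 X, χ ((m : ℕ) : ZMod p) ^ j := by
    rw [sum_comm, sum_congr rfl hgeo, ← sum_filter, sum_const, nsmul_eq_mul, mul_comm]
    push_cast
    ring
  have h2 : ‖∑ j ∈ range l, ∑ m ∈ Icc 1 X, χ ((m : ℕ) : ZMod p) ^ j‖ ≤ X + l * (δ * X) := by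
    obtain ⟨l', rfl⟩ : ∃ l', l = l' + 1 := ⟨l - 1, by have := hl.pos; omega⟩
    rw [sum_range_succ']
    have h3 : ‖∑ j ∈ range l', ∑ m ∈ Icc 1 X, χ ((m : ℕ) : ZMod p) ^ (j + 1)‖ ≤
        l' * (δ * X) := by
      refine (norm_sum_le _ _).trans ?_
      calc ∑ j ∈ range l', ‖∑ m ∈ Icc 1 X, χ ((m : ℕ) : ZMod p) ^ (j + 1)‖
          ≤ ∑ _j ∈ range l', δ * X := by
            refine sum_le_sum fun j hj => ?_
            rw [mem_range] at hj
            have hne : χ ^ (j + 1) ≠ 1 := by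
              intro h
              have h4 := orderOf_dvd_of_pow_eq_one h
              rw [hχ] at h4
              have := Nat.le_of_dvd (by omega) h4
              omega
            have h5 := hs _ hne
            unfold shortSum at h5
            refine le_trans (le_of_eq ?_) h5
            congr 1
            refine sum_congr rfl fun m _ => ?_
            rw [MulChar.pow_apply' χ (by omega)]
        _ = l' * (δ * X) := by rw [sum_const, card_range, nsmul_eq_mul]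
    have h6 : ‖∑ m ∈ Icc 1 X, χ ((m : ℕ) : ZMod p) ^ 0‖ ≤ X := by
      simp
    refine (norm_add_le _ _).trans ?_
    have h7 : (0 : ℝ) ≤ δ * X := by positivity
    push_cast
    nlinarith
  have h8 : (l : ℝ) * #{m ∈ Icc 1 X | χ ((m : ℕ) : ZMod p) = 1} =
      ‖∑ j ∈ range l, ∑ m ∈ Icc 1 X, χ ((m : ℕ) : ZMod p) ^ j‖ := by
    rw [← h1]
    rw [norm_mul, Complex.norm_of_nonneg (by positivity)]
    simp
  rw [h8]
  exact h2

/-- for large `l` the least `l`-th power nonresidue is small -/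
theorem least_big (δ : ℝ) (hδ : 0 < δ) : ∃ K p₀ : ℕ, ∀ p : ℕ, p₀ ≤ p → p.Prime →
    ∀ l : ℕ, l.Prime → K ≤ l → l ∣ p - 1 → ∃ b : ℕ, 1 ≤ b ∧ (b : ℝ) ≤ (p : ℝ) ^ δ ∧
      ((b : ℕ) : ZMod p) ^ ((p - 1) / l) ≠ 1 := by
  classical
  set κ : ℝ := min δ 1 with hκ
  have hκ0 : 0 < κ := lt_min hδ one_pos
  obtain ⟨c, hc0, D0, hD0⟩ := smo κ hκ0 (min_le_right _ _)
  obtain ⟨N0, hN0⟩ := bfm (bin (mom tup) nu1 nu2b shf hol) (1 / 8) (c / 4) 1 (fun r => 2 * (r : ℝ))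
    (by norm_num) (by positivity) one_pos (fun r => by positivity)
  obtain ⟨K, hK⟩ := exists_nat_gt (4 / c)
  have hev := (tendsto_rpow_atTop (show (0 : ℝ) < 1 / 8 by norm_num)).comp
    tendsto_natCast_atTop_atTop |>.eventually_ge_atTop (2 : ℝ)
  obtain ⟨p1, hp1⟩ := Filter.eventually_atTop.1 hev
  refine ⟨K, max N0 (max p1 (max (D0 ^ 2) 4)), fun p hp hpp l hl hKl hd => ?_⟩
  have hpN : N0 ≤ p := (le_max_left _ _).trans hp
  have hpp1 : p1 ≤ p := ((le_max_left _ _).trans (le_max_right _ _)).trans hp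
  have hpD : D0 ^ 2 ≤ p :=
    (((le_max_left _ _).trans (le_max_right _ _)).trans (le_max_right _ _)).trans hp
  have hp4 : 4 ≤ p :=
    (((le_max_right _ _).trans (le_max_right _ _)).trans (le_max_right _ _)).trans hp
  have : Fact p.Prime := ⟨hpp⟩
  have : NeZero p := ⟨hpp.ne_zero⟩
  by_contra hcon
  push Not at hcon
  obtain ⟨χ, hχ⟩ := exists_chi p l hl hd
  have hχl : χ ^ l = 1 := by rw [← hχ]; exact pow_orderOf_eq_one χ
  set X : ℕ := Nat.sqrt p with hX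
  have hXX : X * X ≤ p := Nat.sqrt_le p
  have hXX2 : p < (X + 1) * (X + 1) := Nat.lt_succ_sqrt p
  have hX1 : 2 ≤ X := by
    by_contra hc
    have : X ≤ 1 := by omega
    have : (X + 1) * (X + 1) ≤ 2 * 2 := Nat.mul_le_mul (by omega) (by omega)
    omega
  have hXp : X < p := by nlinarith
  have hppos : (0 : ℝ) < p := by exact_mod_cast hpp.pos
  have hXr : (X : ℝ) ≤ Real.sqrt p := by
    apply Real.le_sqrt_of_sq_le
    rw [pow_two]
    exact_mod_cast hXX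
  have hXlow : (p : ℝ) ^ ((1 : ℝ) / 4 + 1 / 8) ≤ X := by
    have h1 : Real.sqrt p < X + 1 := by
      rw [Real.sqrt_lt' (by positivity), pow_two]
      exact_mod_cast hXX2
    have h2 : Real.sqrt p = (p : ℝ) ^ ((1 : ℝ) / 4 + 1 / 8) * (p : ℝ) ^ ((1 : ℝ) / 8) := by
      rw [← Real.rpow_add hppos, Real.sqrt_eq_rpow]
      norm_num
    have h3 : (2 : ℝ) ≤ (p : ℝ) ^ ((1 : ℝ) / 8) := hp1 p hpp1
    have h4 : (1 : ℝ) ≤ (p : ℝ) ^ ((1 : ℝ) / 4 + 1 / 8) :=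
      Real.one_le_rpow (by exact_mod_cast hpp.one_lt.le) (by norm_num)
    rw [h2] at h1
    nlinarith
  have hsum : ∀ ψ : DirichletCharacter ℂ p, ψ ≠ 1 → ‖shortSum p ψ X‖ ≤ c / 4 * X := fun ψ hψ =>
    hN0 p hpN ψ (Pool.Agent.Y165.HN.fam_all p ψ hψ) X hXlow hXr
  have hcount := count_one p l X hl hXp χ hχ (c / 4) hsum (by positivity)
  -- smooth numbers
  have hDD : D0 ≤ X + 1 := by
    by_contra hc
    have h1 : X + 2 ≤ D0 := by omega
    have h2 : (X + 1) * (X + 1) < D0 ^ 2 := by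
      rw [pow_two]
      exact Nat.mul_lt_mul'' (by omega) (by omega)
    omega
  obtain ⟨S, hS1, hS2⟩ := hD0 (X + 1) hDD
  have hSsub : S ⊆ (Icc 1 X).filter (fun m : ℕ => χ ((m : ℕ) : ZMod p) = 1) := by
    intro s hs
    obtain ⟨h1, h2, h3⟩ := hS1 s hs
    rw [mem_filter, mem_Icc]
    refine ⟨⟨h1, by omega⟩, ?_⟩
    apply vin_one p χ s (by omega)
    intro q hq hqs
    refine chi_one p l hl hd χ hχl _ (hcon q hq.one_lt.le ?_)
    refine (h3 q hq hqs).trans ?_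
    have h4 : ((X + 1 : ℕ) : ℝ) ≤ p := by exact_mod_cast (show X + 1 ≤ p by omega)
    calc ((X + 1 : ℕ) : ℝ) ^ κ ≤ (p : ℝ) ^ κ := Real.rpow_le_rpow (by positivity) h4 hκ0.le
      _ ≤ (p : ℝ) ^ δ := Real.rpow_le_rpow_of_exponent_le (by exact_mod_cast hpp.one_lt.le)
          (min_le_left _ _)
  have hcard := card_le_card hSsub
  have h5 : c * ((X + 1 : ℕ) : ℝ) ≤ #{m ∈ Icc 1 X | χ ((m : ℕ) : ZMod p) = 1} :=
    hS2.trans (by exact_mod_cast hcard)
  have hl0 : (0 : ℝ) < l := by exact_mod_cast hl.pos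
  have hlc : 4 ≤ c * l := by
    have h6 : (K : ℝ) ≤ l := by exact_mod_cast hKl
    have h7 : 4 / c < l := lt_of_lt_of_le hK h6
    rw [div_lt_iff₀ hc0] at h7
    linarith
  have hX0 : (0 : ℝ) < X := by exact_mod_cast (show 0 < X by omega)
  push_cast at h5
  have h8 : (l : ℝ) * (c * (X + 1)) ≤ X + l * (c / 4 * X) :=
    (mul_le_mul_of_nonneg_left h5 hl0.le).trans hcount
  nlinarith [mul_pos hl0 hc0, mul_le_mul_of_nonneg_right hlc hX0.le]

end Pool.Agent.Q265.PR
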