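import Pool.Agent.Q265.PR.C
import Pool.Agent.Helper923.HMertens

set_option autoImplicit false

/-! # Vinogradov's bound for power nonresidues of a fixed order -/

namespace Pool.Agent.Q265.PR

open Finset Pool.Agent.H471R4.BW

open Classical in
/-- the number of `m ≤ X` without prime factors above `y` -/
theorem smooth_count (y X : ℕ) :
    (X : ℝ) - X * ∑ q ∈ (Ioc y X).filter Nat.Prime, (1 : ℝ) / q ≤
      #{m ∈ Icc 1 X | ∀ q : ℕ, q.Prime → q ∣ m → q ≤ y} := by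
  have h1 : Icc 1 X ⊆ {m ∈ Icc 1 X | ∀ q : ℕ, q.Prime → q ∣ m → q ≤ y} ∪
      ((Ioc y X).filter Nat.Prime).biUnion (fun q => (Icc 1 X).filter (fun m => q ∣ m)) := by
    intro m hm
    rw [mem_union, mem_filter, mem_biUnion]
    by_cases h : ∀ q : ℕ, q.Prime → q ∣ m → q ≤ y
    · exact Or.inl ⟨hm, h⟩
    · right
      push Not at h
      obtain ⟨q, hq, hqm, hqy⟩ := h
      rw [mem_Icc] at hm
      have := Nat.le_of_dvd (by omega) hqm
      exact ⟨q, mem_filter.2 ⟨mem_Ioc.2 ⟨hqy, by omega⟩, hq⟩,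
        mem_filter.2 ⟨mem_Icc.2 hm, hqm⟩⟩
  have h2 := (card_le_card h1).trans (card_union_le _ _)
  rw [Nat.card_Icc, Nat.add_sub_cancel] at h2
  have h3 : ((((Ioc y X).filter Nat.Prime).biUnion
      (fun q => (Icc 1 X).filter (fun m => q ∣ m))).card : ℝ) ≤
      X * ∑ q ∈ (Ioc y X).filter Nat.Prime, (1 : ℝ) / q := by
    have h4 : (((Ioc y X).filter Nat.Prime).biUnion
      (fun q => (Icc 1 X).filter (fun m => q ∣ m))).card ≤
        ∑ q ∈ (Ioc y X).filter Nat.Prime, X / q := by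
      refine card_biUnion_le.trans (le_of_eq (sum_congr rfl fun q _ => ?_))
      have h := Nat.Ioc_filter_dvd_card_eq_div X q
      rw [← h]
      congr 1
    rw [mul_sum]
    refine le_trans (Nat.cast_le.2 h4) ?_
    push_cast
    refine sum_le_sum fun q _ => ?_
    rw [mul_one_div]
    exact Nat.cast_div_le
  have h5 : (X : ℝ) ≤ #{m ∈ Icc 1 X | ∀ q : ℕ, q.Prime → q ∣ m → q ≤ y} +
      (((Ioc y X).filter Nat.Prime).biUnion
        (fun q => (Icc 1 X).filter (fun m => q ∣ m))).card := by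
    exact_mod_cast h2
  linarith

theorem rho_l (β ε : ℝ) (hβ : 1 / 2 ≤ β) (hε : 0 < ε) :
    Real.log ((1 / 4 + ε / 2) / (1 / (4 * Real.exp β) + 3 / 4 * ε)) < β := by
  have hs : 1 < Real.exp β := Real.one_lt_exp_iff.mpr (by linarith)
  have hs0 : 0 < Real.exp β := Real.exp_pos _
  rw [Real.log_lt_iff_lt_exp (by positivity), div_lt_iff₀ (by positivity)]
  have e1 : Real.exp β * (1 / (4 * Real.exp β) + 3 / 4 * ε) =
      1 / 4 + Real.exp β * (3 / 4 * ε) := by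
    field_simp
  rw [e1]
  nlinarith [mul_pos (sub_pos.mpr hs) hε]

/-- the least `l`-th power nonresidue is at most `p ^ (1 / (4 e ^ (1 - 1 / l)) + ε)` -/
theorem least_fix (l : ℕ) (hl : l.Prime) (ε : ℝ) (hε : 0 < ε) : ∃ p₀ : ℕ, ∀ p : ℕ, p₀ ≤ p →
    p.Prime → l ∣ p - 1 → ∃ b : ℕ, 1 ≤ b ∧
      (b : ℝ) ≤ (p : ℝ) ^ (1 / (4 * Real.exp (1 - 1 / (l : ℝ))) + ε) ∧
      ((b : ℕ) : ZMod p) ^ ((p - 1) / l) ≠ 1 := by
  classical
  obtain ⟨η, hηdef⟩ : ∃ η, η = min ε (1 / 16) := ⟨_, rfl⟩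
  have hη : 0 < η := by rw [hηdef]; exact lt_min hε (by norm_num)
  have hηε : η ≤ ε := by rw [hηdef]; exact min_le_left _ _
  have hη16 : η ≤ 1 / 16 := by rw [hηdef]; exact min_le_right _ _
  have hl2 : (2 : ℝ) ≤ l := by exact_mod_cast hl.two_le
  have hl0 : (0 : ℝ) < l := by linarith
  obtain ⟨β, hβdef⟩ : ∃ β : ℝ, β = 1 - 1 / (l : ℝ) := ⟨_, rfl⟩
  rw [← hβdef]
  have hβ : 1 / 2 ≤ β := by
    rw [hβdef]
    have : 1 / (l : ℝ) ≤ 1 / 2 := one_div_le_one_div_of_le (by norm_num) hl2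
    linarith
  have hrho := rho_l β η hβ hη
  obtain ⟨b, hb⟩ : ∃ b, b = 1 / (4 * Real.exp β) + 3 / 4 * η := ⟨_, rfl⟩
  have hb0 : 0 < b := by rw [hb]; positivity
  rw [← hb] at hrho
  obtain ⟨γ, hγ⟩ : ∃ γ, γ = β - Real.log ((1 / 4 + η / 2) / b) := ⟨_, rfl⟩
  have hγ0 : 0 < γ := by rw [hγ]; linarith
  obtain ⟨C, hC0, hC⟩ := Pool.Agent.Helper923.HMertens.mertens_ratio
  obtain ⟨N0, hN0⟩ := bfm (bin (mom tup) nu1 nu2b shf hol) (η / 4) (γ / 3) 1
    (fun r => 2 * (r : ℝ)) (by positivity) (by positivity) one_pos (fun r => by positivity)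
  obtain ⟨L0, hL0⟩ : ∃ L0 : ℝ, Real.log 2 / (η / 4) ≤ L0 ∧ Real.log 2 / b ≤ L0 ∧
      3 * C / (γ * b) < L0 ∧ 1 ≤ L0 :=
    ⟨max (Real.log 2 / (η / 4)) (max (Real.log 2 / b) (max (3 * C / (γ * b) + 1) 1)),
      le_max_left _ _, (le_max_left _ _).trans (le_max_right _ _),
      lt_of_lt_of_le (lt_add_one _) (((le_max_left _ _).trans (le_max_right _ _)).trans
        (le_max_right _ _)),
      ((le_max_right _ _).trans (le_max_right _ _)).trans (le_max_right _ _)⟩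
  obtain ⟨hL1, hL2, hL3, hL4⟩ := hL0
  refine ⟨max N0 (max 1 ⌈Real.exp L0⌉₊), fun p hp hpp hd => ?_⟩
  have hNN0 : N0 ≤ p := (le_max_left _ _).trans hp
  have hNexp : Real.exp L0 ≤ p := by
    have : ⌈Real.exp L0⌉₊ ≤ p := ((le_max_right _ _).trans (le_max_right _ _)).trans hp
    exact (Nat.le_ceil _).trans (by exact_mod_cast this)
  have : Fact p.Prime := ⟨hpp⟩
  have : NeZero p := ⟨hpp.ne_zero⟩
  have hNr1 : (1 : ℝ) ≤ p := by exact_mod_cast hpp.one_lt.le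
  have hNpos : (0 : ℝ) < p := by linarith
  have hlog : L0 ≤ Real.log p := (Real.le_log_iff_exp_le hNpos).mpr hNexp
  have hLpos : 0 < Real.log p := by linarith
  have hpow : ∀ t : ℝ, 0 < t → Real.log 2 / t ≤ Real.log p → (2 : ℝ) ≤ (p : ℝ) ^ t := by
    intro t ht hle
    rw [div_le_iff₀ ht] at hle
    rw [Real.rpow_def_of_pos hNpos]
    calc (2 : ℝ) = Real.exp (Real.log 2) := (Real.exp_log (by norm_num)).symm
      _ ≤ Real.exp (Real.log p * t) := Real.exp_le_exp.mpr hle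
  by_contra hcon
  push Not at hcon
  have hqn : (2 : ℝ) ≤ (p : ℝ) ^ (η / 4) := hpow _ (by positivity) (hL1.trans hlog)
  obtain ⟨y, hydef⟩ : ∃ y : ℕ, y = ⌊(p : ℝ) ^ (1 / (4 * Real.exp β) + η)⌋₊ := ⟨_, rfl⟩
  have hyup : (y : ℝ) ≤ (p : ℝ) ^ (1 / (4 * Real.exp β) + ε) := by
    rw [hydef]
    exact (Nat.floor_le (by positivity)).trans
      (Real.rpow_le_rpow_of_exponent_le hNr1 (by linarith))
  have hyb : (p : ℝ) ^ b < y := by
    have h1 : (p : ℝ) ^ (1 / (4 * Real.exp β) + η) < y + 1 := by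
      rw [hydef]
      exact Nat.lt_floor_add_one _
    have h2 : (p : ℝ) ^ (1 / (4 * Real.exp β) + η) = (p : ℝ) ^ (η / 4) * (p : ℝ) ^ b := by
      rw [← Real.rpow_add hNpos, hb]
      congr 1
      ring
    have h3 : (1 : ℝ) ≤ (p : ℝ) ^ b := Real.one_le_rpow hNr1 hb0.le
    rw [h2] at h1
    nlinarith
  have hy2 : (2 : ℝ) < y := lt_of_le_of_lt (hpow b hb0 (hL2.trans hlog)) hyb
  have hy2' : 2 ≤ y := by
    have : (2 : ℕ) < y := by exact_mod_cast hy2
    omega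
  have hypos : (0 : ℝ) < y := by linarith
  have hlogy : b * Real.log p < Real.log y := by
    have := Real.log_lt_log (Real.rpow_pos_of_pos hNpos b) hyb
    rwa [Real.log_rpow hNpos] at this
  have hlogypos : 0 < Real.log y := by
    have : 0 < b * Real.log p := by positivity
    linarith
  -- X
  obtain ⟨X, hXdef⟩ : ∃ X : ℕ, X = ⌈(p : ℝ) ^ (1 / 4 + η / 4)⌉₊ := ⟨_, rfl⟩
  have hX1 : (p : ℝ) ^ (1 / 4 + η / 4) ≤ X := by rw [hXdef]; exact Nat.le_ceil _
  have hXpow : (X : ℝ) ≤ (p : ℝ) ^ (1 / 4 + η / 2) := by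
    have h1 : (X : ℝ) ≤ (p : ℝ) ^ (1 / 4 + η / 4) + 1 := by
      rw [hXdef]; exact (Nat.ceil_lt_add_one (by positivity)).le
    have h2 : (1 : ℝ) ≤ (p : ℝ) ^ (1 / 4 + η / 4) := Real.one_le_rpow hNr1 (by positivity)
    have h4 : (p : ℝ) ^ (1 / 4 + η / 2) = (p : ℝ) ^ (η / 4) * (p : ℝ) ^ (1 / 4 + η / 4) := by
      rw [← Real.rpow_add hNpos]; congr 1; ring
    rw [h4]
    nlinarith
  have hX2 : (X : ℝ) ≤ Real.sqrt p := by
    rw [Real.sqrt_eq_rpow]
    exact hXpow.trans (Real.rpow_le_rpow_of_exponent_le hNr1 (by linarith))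
  have hXge1 : (1 : ℝ) ≤ X := (Real.one_le_rpow hNr1 (by positivity)).trans hX1
  have hXpos : (0 : ℝ) < X := by linarith
  have hXp : X < p := by
    have h1 : (X : ℝ) < p := by
      refine lt_of_le_of_lt (hXpow.trans (Real.rpow_le_rpow_of_exponent_le hNr1
        (show (1 / 4 + η / 2 : ℝ) ≤ 1 / 2 by linarith))) ?_
      have h2 : (p : ℝ) ^ ((1 : ℝ) / 2) < (p : ℝ) ^ (1 : ℝ) :=
        Real.rpow_lt_rpow_of_exponent_lt (by exact_mod_cast hpp.one_lt) (by norm_num)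
      rwa [Real.rpow_one] at h2
    exact_mod_cast h1
  obtain ⟨χ, hχ⟩ := exists_chi p l hl hd
  have hχl : χ ^ l = 1 := by rw [← hχ]; exact pow_orderOf_eq_one χ
  have hsum : ∀ ψ : DirichletCharacter ℂ p, ψ ≠ 1 → ‖shortSum p ψ X‖ ≤ γ / 3 * X := fun ψ hψ =>
    hN0 p hNN0 ψ (Pool.Agent.Y165.HN.fam_all p ψ hψ) X hX1 hX2
  have hcount := count_one p l X hl hXp χ hχ (γ / 3) hsum (by positivity)
  have hsub : (Icc 1 X).filter (fun m : ℕ => ∀ q : ℕ, q.Prime → q ∣ m → q ≤ y) ⊆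
      (Icc 1 X).filter (fun m : ℕ => χ ((m : ℕ) : ZMod p) = 1) := by
    intro m hm
    rw [mem_filter, mem_Icc] at hm ⊢
    refine ⟨hm.1, vin_one p χ m (by omega) fun q hq hqm => ?_⟩
    refine chi_one p l hl hd χ hχl _ (hcon q hq.one_lt.le ?_)
    exact le_trans (by exact_mod_cast hm.2 q hq hqm) hyup
  have hcard : ((#{m ∈ Icc 1 X | ∀ q : ℕ, q.Prime → q ∣ m → q ≤ y} : ℕ) : ℝ) ≤
      #{m ∈ Icc 1 X | χ ((m : ℕ) : ZMod p) = 1} := by
    exact_mod_cast card_le_card hsub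
  have hsm := (smooth_count y X).trans hcard
  -- the sum over the primes
  have hprim : ∑ q ∈ (Ioc y X).filter Nat.Prime, (1 : ℝ) / q ≤ β - γ + γ / 3 := by
    have hCy : C / Real.log y ≤ γ / 3 := by
      rw [div_le_iff₀ hlogypos]
      have h5 : 3 * C < Real.log p * (γ * b) := by
        have := lt_of_lt_of_le hL3 hlog
        rwa [div_lt_iff₀ (by positivity)] at this
      nlinarith [mul_lt_mul_of_pos_left hlogy hγ0]
    rcases le_or_gt X y with hXy | hXy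
    · rw [Finset.Ioc_eq_empty_of_le hXy, Finset.filter_empty, Finset.sum_empty]
      have h1 : 0 ≤ Real.log ((1 / 4 + η / 2) / b) := by
        apply Real.log_nonneg
        rw [le_div_iff₀ hb0, one_mul, hb]
        have h2 : 1 / (4 * Real.exp β) ≤ 1 / (4 * (3 / 2)) := by
          apply one_div_le_one_div_of_le (by norm_num)
          have := Real.add_one_le_exp β
          linarith
        linarith
      have : β - γ = Real.log ((1 / 4 + η / 2) / b) := by rw [hγ]; ring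
      rw [this]
      positivity
    · have hm := hC y X hy2' hXy.le
      have hm2 := (abs_le.mp hm).2
      have hlogX : Real.log X ≤ (1 / 4 + η / 2) * Real.log p := by
        have := Real.log_le_log hXpos hXpow
        rwa [Real.log_rpow hNpos] at this
      have hlogXpos : 0 < Real.log X := by
        apply Real.log_pos
        have : 1 < X := by omega
        exact_mod_cast this
      have hratio : Real.log X / Real.log y ≤ (1 / 4 + η / 2) / b := by
        rw [div_le_div_iff₀ hlogypos hb0]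
        calc Real.log X * b ≤ ((1 / 4 + η / 2) * Real.log p) * b := by gcongr
          _ = (1 / 4 + η / 2) * (b * Real.log p) := by ring
          _ ≤ (1 / 4 + η / 2) * Real.log y := by gcongr
      have hlr : Real.log (Real.log X / Real.log y) ≤ β - γ := by
        rw [hγ]
        have := Real.log_le_log (div_pos hlogXpos hlogypos) hratio
        linarith
      linarith
  have h1l : β = 1 - 1 / (l : ℝ) := hβdef
  have h6 : (l : ℝ) * (X - X * (β - γ + γ / 3)) ≤ X + l * (γ / 3 * X) := by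
    refine le_trans ?_ hcount
    refine mul_le_mul_of_nonneg_left (le_trans ?_ hsm) hl0.le
    have := mul_le_mul_of_nonneg_left hprim hXpos.le
    linarith
  have h7 : (l : ℝ) * (X - X * (β - γ + γ / 3)) - (X + l * (γ / 3 * X)) =
      l * X * (γ / 3) := by
    rw [h1l]
    field_simp
    ring
  have h8 : 0 < (l : ℝ) * X * (γ / 3) := by positivity
  linarith

/-- the bound for all `l` together -/
theorem least_sharp (ε : ℝ) (hε : 0 < ε) : ∃ p₀ : ℕ, ∀ p : ℕ, p₀ ≤ p → p.Prime →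
    ∀ l : ℕ, l.Prime → l ∣ p - 1 → ∃ b : ℕ, 1 ≤ b ∧
      (b : ℝ) ≤ (p : ℝ) ^ (1 / (4 * Real.exp (1 - 1 / (l : ℝ))) + ε) ∧
      ((b : ℕ) : ZMod p) ^ ((p - 1) / l) ≠ 1 := by
  obtain ⟨K, p1, h1⟩ := least_big ε hε
  have h2 : ∀ l : ℕ, ∃ p₀ : ℕ, l.Prime → ∀ p : ℕ, p₀ ≤ p → p.Prime → l ∣ p - 1 → ∃ b : ℕ, 1 ≤ b ∧
      (b : ℝ) ≤ (p : ℝ) ^ (1 / (4 * Real.exp (1 - 1 / (l : ℝ))) + ε) ∧
      ((b : ℕ) : ZMod p) ^ ((p - 1) / l) ≠ 1 := by
    intro l
    by_cases hl : l.Prime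
    · obtain ⟨p₀, h⟩ := least_fix l hl ε hε
      exact ⟨p₀, fun _ => h⟩
    · exact ⟨0, fun h => absurd h hl⟩
  choose P hP using h2
  refine ⟨p1 + ∑ l ∈ range K, P l, fun p hp hpp l hl hd => ?_⟩
  rcases le_or_gt K l with h | h
  · obtain ⟨b, hb1, hb2, hb3⟩ := h1 p (by omega) hpp l hl h hd
    refine ⟨b, hb1, hb2.trans ?_, hb3⟩
    refine Real.rpow_le_rpow_of_exponent_le (by exact_mod_cast hpp.one_lt.le) ?_
    have : 0 < 1 / (4 * Real.exp (1 - 1 / (l : ℝ))) := by positivity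
    linarith
  · have h3 : P l ≤ ∑ l ∈ range K, P l :=
      single_le_sum (f := P) (fun _ _ => Nat.zero_le _) (mem_range.2 h)
    exact hP l hl p (by omega) hpp hd

end Pool.Agent.Q265.PR
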