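import Mathlib
import Pool.Agent.Q265.PR.B
import Pool.Agent.Q265.PR.D
import Pool.Agent.H595R2.PR.SIZ

set_option autoImplicit false

/-! # Primitive roots modulo every prime in deterministic time `p ^ (1 / (4 √e) + ε)` -/

namespace Pool.Agent.Q265.PR.E

open Finset Pool.Agent.NPC.Q265PR Pool.Agent.H595R2.PR

/-- the number `g` is a primitive root modulo `p` -/
def IsPrimRoot (p g : ℕ) : Prop := orderOf (g : ZMod p) = p - 1

open Classical in
/-- After `T` rounds the algorithm made of the three functions `init`, `step`, `out` puts out, on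
the input `p` in binary, (the code of) a list of `p.size ^ C` numbers all of which up to a fraction
of at most `p.size ^ (-B)` are primitive roots modulo `p`. -/
def Finds (init step out : List Bool → List Bool) (B C p T : ℕ) : Prop :=
  ∃ F : List ℕ, out (step^[T] (init (Nat.bits p))) = NPC.bits F ∧ F.length = p.size ^ C ∧
    p.size ^ B * #{i ∈ range F.length | ¬ IsPrimRoot p (F.getD i 0)} ≤ F.length

/-- `l` does not divide `p - 1`, or `-1` or one of `1, 2, …, p ^ δ` is not an `l`-th power modulo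
`p` -/
def Easy (p : ℕ) (δ : ℝ) (l : ℕ) : Prop :=
  l ∣ p - 1 → ∃ x : ZMod p, (x = -1 ∨ ∃ i : ℕ, 1 ≤ i ∧ (i : ℝ) ≤ (p : ℝ) ^ δ ∧ x = i) ∧
    ¬ ∃ c : ZMod p, c ^ l = x

theorem not_pow {p l : ℕ} [Fact p.Prime] (hl : l.Prime) (hd : l ∣ p - 1) {x : ZMod p}
    (hx : x ^ ((p - 1) / l) ≠ 1) (hx0 : x ≠ 0) : ¬ ∃ c : ZMod p, c ^ l = x := by
  rintro ⟨c, rfl⟩
  apply hx
  rw [← pow_mul, Nat.mul_div_cancel' hd]
  apply ZMod.pow_card_sub_one_eq_one
  rintro rfl
  rw [zero_pow hl.ne_zero] at hx0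
  exact hx0 rfl

theorem tv_zero {p : ℕ} (hp : p.Prime) : ((tv p 0 : ℕ) : ZMod p) = -1 := by
  have h2 := hp.two_le
  unfold tv
  rw [if_pos rfl, Nat.cast_sub (by omega), Nat.cast_one, ZMod.natCast_self, zero_sub]

theorem tv_pos {p b : ℕ} (hb : 1 ≤ b) : ((tv p b : ℕ) : ZMod p) = b := by
  unfold tv
  rw [if_neg (by omega)]

/-- `2` is easy unless `p = 1` modulo `8` -/
theorem easy_two {p : ℕ} (hp : p.Prime) (δ : ℝ) (hδ : (2 : ℝ) ≤ (p : ℝ) ^ δ) (hp2 : p ≠ 2)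
    (h8 : p % 8 ≠ 1) : Easy p δ 2 := by
  have : Fact p.Prime := ⟨hp⟩
  intro _
  have hodd : p % 2 = 1 := hp.eq_two_or_odd.resolve_left hp2
  by_cases h4 : p % 4 = 3
  · refine ⟨-1, Or.inl rfl, ?_⟩
    rintro ⟨c, hc⟩
    have h1 := ZMod.exists_sq_eq_neg_one_iff (p := p)
    have h2 : IsSquare (-1 : ZMod p) := ⟨c, by rw [← hc, pow_two]⟩
    exact (h1.1 h2) h4
  · refine ⟨((2 : ℕ) : ZMod p), Or.inr ⟨2, by norm_num, by exact_mod_cast hδ, rfl⟩, ?_⟩
    rintro ⟨c, hc⟩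
    have h1 := ZMod.exists_sq_eq_two_iff (p := p) hp2
    have h2 : IsSquare (2 : ZMod p) := ⟨c, by rw [← pow_two, hc]; norm_num⟩
    have h3 := h1.1 h2
    omega

open Classical in
theorem finds_of {e A B p y T : ℕ} (hpp : p.Prime) (hyp : y < p) (he : 1 ≤ e)
    (h1 : (p : ℝ) ^ (1 - 1 / (e : ℝ)) ≤ (Nat.card (Gam p (p.size ^ A)) : ℝ))
    (h2 : p.size ^ A < p) (h3 : p.size ^ ((A + B + 1) * e) < p) (hH : Has p e y)
    (hT : (p : ℝ) ^ (1 / (e : ℝ)) + y * p.size ≤ T) :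
    Finds iniB (stpB e) (outB A (A + B + 1)) B (A + B + 1) p T := by
  have : Fact p.Prime := ⟨hpp⟩
  have hp0 : (0 : ℝ) < p := by exact_mod_cast hpp.pos
  have he0 : (e : ℝ) ≠ 0 := by
    have : (1 : ℝ) ≤ e := by exact_mod_cast he
    linarith
  have hR : p < (⌊(p : ℝ) ^ (1 / (e : ℝ))⌋₊ + 2) ^ e := by
    have h4 : (p : ℝ) ^ (1 / (e : ℝ)) < ((⌊(p : ℝ) ^ (1 / (e : ℝ))⌋₊ + 2 : ℕ) : ℝ) := by
      have := Nat.lt_floor_add_one ((p : ℝ) ^ (1 / (e : ℝ)))
      push_cast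
      linarith
    have h5 : ((p : ℝ) ^ (1 / (e : ℝ))) ^ e <
        ((⌊(p : ℝ) ^ (1 / (e : ℝ))⌋₊ + 2 : ℕ) : ℝ) ^ e :=
      pow_lt_pow_left₀ h4 (by positivity) (by omega)
    rw [← Real.rpow_natCast, ← Real.rpow_mul hp0.le, one_div_mul_cancel he0, Real.rpow_one] at h5
    exact_mod_cast h5
  have hT2 : ⌊(p : ℝ) ^ (1 / (e : ℝ))⌋₊ + y * p.size ≤ T := by
    have h4 := Nat.floor_le (show 0 ≤ (p : ℝ) ^ (1 / (e : ℝ)) by positivity)
    have h5 : ((⌊(p : ℝ) ^ (1 / (e : ℝ))⌋₊ + y * p.size : ℕ) : ℝ) ≤ T := by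
      push_cast
      linarith
    exact_mod_cast h5
  obtain ⟨l, N, g, hs, hI, hl⟩ := final hyp hH _ hR T hT2
  have hidx : ((p - 1) / Nat.card (Gam p (p.size ^ A))) ^ e ≤ p := by
    have h4 : (((p - 1) / Nat.card (Gam p (p.size ^ A)) : ℕ) : ℝ) ≤ (p : ℝ) ^ (1 / (e : ℝ)) := by
      refine Nat.cast_div_le.trans ?_
      have h5 : (0 : ℝ) < (p : ℝ) ^ (1 - 1 / (e : ℝ)) := by positivity
      rw [div_le_iff₀ (lt_of_lt_of_le h5 h1)]
      have h6 : (p : ℝ) ^ (1 / (e : ℝ)) * (p : ℝ) ^ (1 - 1 / (e : ℝ)) = p := by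
        rw [← Real.rpow_add hp0]
        have : 1 / (e : ℝ) + (1 - 1 / (e : ℝ)) = 1 := by ring
        rw [this, Real.rpow_one]
      have h7 : ((p - 1 : ℕ) : ℝ) ≤ p := by exact_mod_cast Nat.sub_le p 1
      refine h7.trans ?_
      have h8 := mul_le_mul_of_nonneg_left h1 (show 0 ≤ (p : ℝ) ^ (1 / (e : ℝ)) by positivity)
      rw [h6] at h8
      exact h8
    have h5 := pow_le_pow_left₀ (by positivity) h4 e
    rw [← Real.rpow_natCast ((p : ℝ) ^ (1 / (e : ℝ))), ← Real.rpow_mul hp0.le,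
      one_div_mul_cancel he0, Real.rpow_one] at h5
    exact_mod_cast h5
  have hC : (p.size ^ (A + B + 1)) ^ e ≤ p := by
    rw [← pow_mul]
    exact h3.le
  have hf := few (A := A) (C := A + B + 1) h2 hI hl hC hidx
  have hlen : (outp A (A + B + 1) (p, l, 0, N, g)).length = p.size ^ (A + B + 1) := by
    simp [outp]
  refine ⟨outp A (A + B + 1) (p, l, 0, N, g), ?_, hlen, ?_⟩
  · rw [iter_bits, hs, outB_bits]
  · rw [hlen]
    have h9 : #{i ∈ range (p.size ^ (A + B + 1)) |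
        ¬ IsPrimRoot p ((outp A (A + B + 1) (p, l, 0, N, g)).getD i 0)} ≤ p.size ^ A * p.size := by
      refine le_trans (card_le_card ?_) hf
      intro i hi
      rw [mem_filter] at hi ⊢
      exact hi
    calc p.size ^ B * _ ≤ p.size ^ B * (p.size ^ A * p.size) := Nat.mul_le_mul_left _ h9
      _ = p.size ^ (A + B + 1) := by ring

theorem size_le_rpow (δ : ℝ) (hδ : 0 < δ) : ∃ p₀ : ℕ, ∀ p ≥ p₀, (p.size : ℝ) + 1 ≤ (p : ℝ) ^ δ := by
  obtain ⟨m, hm⟩ := exists_nat_gt (2 / δ)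
  have hm0 : (0 : ℝ) < m := lt_trans (by positivity) hm
  obtain ⟨p₀, h⟩ := pow_size_lt m
  refine ⟨p₀ + 2, fun p hp => ?_⟩
  have h1 := h p (by omega)
  have hp1 : (1 : ℝ) ≤ p := by exact_mod_cast (show 1 ≤ p by omega)
  have hs : 2 ≤ p.size := by
    have : 1 < p.size := Nat.lt_size.2 (by omega)
    omega
  have hsr : (2 : ℝ) ≤ p.size := by exact_mod_cast hs
  have h2 : ((p.size : ℝ)) ^ m < p := by exact_mod_cast h1
  have h3 : (p.size : ℝ) ≤ (p : ℝ) ^ (1 / (m : ℝ)) := by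
    rw [← Real.rpow_natCast] at h2
    have h4 := Real.rpow_le_rpow (by positivity) h2.le (show 0 ≤ 1 / (m : ℝ) by positivity)
    rwa [← Real.rpow_mul (by positivity), mul_one_div_cancel hm0.ne', Real.rpow_one] at h4
  have h5 : (p : ℝ) ^ (1 / (m : ℝ)) ≤ (p : ℝ) ^ (δ / 2) := by
    refine Real.rpow_le_rpow_of_exponent_le hp1 ?_
    rw [div_lt_iff₀ hδ] at hm
    rw [div_le_iff₀ hm0]
    linarith
  have h6 : (p : ℝ) ^ δ = (p : ℝ) ^ (δ / 2) * (p : ℝ) ^ (δ / 2) := by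
    rw [← Real.rpow_add (by linarith)]
    congr 1
    ring
  have h7 := h3.trans h5
  rw [h6]
  nlinarith

/-- **Primitive roots modulo every prime, without the factorisation of `p - 1`.**
For `0 < ε ≤ 1` and every `B` there are `C` and three functions `init`, `step`, `out` on bit strings
computable in polynomial time (by Turing machines) such that all the states which occur on the input
`p` have at most `40 * size p` bits (linear space) and for every prime `p ≥ p₀`: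

(1) `p ^ (1 / (4 √e) + ε)` (`1 / (4 √e) = 0.1516…`) rounds suffice to produce a list of `size p ^ C`
    numbers of which all but a fraction `size p ^ (-B)` are primitive roots modulo `p`;
(2) if for every prime `l < L` dividing `p - 1` one of `-1, 1, 2, …, p ^ (ε / 2)` is not an `l`-th
    power, `p ^ (1 / (4 e ^ (1 - 1 / L)) + ε)` rounds suffice; in particular (3)
    `p ^ (1 / (4 e ^ (2 / 3)) + ε)` (`0.1283…`) for all `p ≢ 1` modulo `8`;
(4) if this holds for all primes `l < K`, `K = K(ε)` a constant, then `p ^ ε` rounds suffice; in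
    particular (5) for all `p ≢ 1` modulo `8` such that `p - 1` has no odd prime factor below `K`. -/
theorem main (ε : ℝ) (hε : 0 < ε) (hε1 : ε ≤ 1) (B : ℕ) :
    ∃ (C : ℕ) (init step out : List Bool → List Bool),
      NPC.PolyTime init ∧ NPC.PolyTime step ∧ NPC.PolyTime out ∧
      (∀ p : ℕ, 2 ≤ p → ∀ k : ℕ, (step^[k] (init (Nat.bits p))).length ≤ 40 * p.size) ∧
      ∃ K p₀ : ℕ, ∀ p : ℕ, p₀ ≤ p → p.Prime → ∀ T : ℕ,
        ((p : ℝ) ^ (1 / (4 * Real.exp (1 / 2)) + ε) ≤ T → Finds init step out B C p T) ∧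
        (∀ L : ℕ, 2 ≤ L → (∀ l : ℕ, l.Prime → l < L → Easy p (ε / 2) l) →
          (p : ℝ) ^ (1 / (4 * Real.exp (1 - 1 / (L : ℝ))) + ε) ≤ T →
          Finds init step out B C p T) ∧
        (p % 8 ≠ 1 → (p : ℝ) ^ (1 / (4 * Real.exp (2 / 3)) + ε) ≤ T →
          Finds init step out B C p T) ∧
        ((∀ l : ℕ, l.Prime → l < K → Easy p (ε / 2) l) → (p : ℝ) ^ ε ≤ T →
          Finds init step out B C p T) ∧
        (p % 8 ≠ 1 → (∀ l : ℕ, l.Prime → l ≠ 2 → l ∣ p - 1 → K ≤ l) → (p : ℝ) ^ ε ≤ T →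
          Finds init step out B C p T) := by
  obtain ⟨e, he⟩ := exists_nat_gt (4 / ε)
  have he0 : (0 : ℝ) < e := lt_trans (by positivity) he
  have he1 : 1 ≤ e := by
    have : 0 < e := by exact_mod_cast he0
    omega
  have hee : 1 / (e : ℝ) ≤ ε / 4 := by
    rw [div_lt_iff₀ hε] at he
    rw [div_le_iff₀ he0]
    linarith
  obtain ⟨A, hA⟩ := Gam_large (1 / (e : ℝ)) (by positivity)
  obtain ⟨p₁, hp₁⟩ := hA A le_rfl
  obtain ⟨p₂, hp₂⟩ := pow_size_lt A
  obtain ⟨p₃, hp₃⟩ := pow_size_lt ((A + B + 1) * e)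
  obtain ⟨p₄, hp₄⟩ := size_le_rpow (ε / 4) (by positivity)
  obtain ⟨p₅, hp₅⟩ := Pool.Agent.Q265.PR.least_sharp (ε / 2) (by positivity)
  obtain ⟨K, p₆, hp₆⟩ := Pool.Agent.Q265.PR.least_big (ε / 2) (by positivity)
  refine ⟨A + B + 1, iniB, stpB e, outB A (A + B + 1), polyTime_iniB, polyTime_stpB e,
    polyTime_outB A (A + B + 1), fun p hp k => len_iter hp he1 k,
    K, p₁ + p₂ + p₃ + p₄ + p₅ + p₆ + 3, fun p hp hpp T => ?_⟩
  have : Fact p.Prime := ⟨hpp⟩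
  have hp1 : (1 : ℝ) ≤ p := by exact_mod_cast hpp.one_lt.le
  have hp0 : (0 : ℝ) < p := by linarith
  have hsz := hp₄ p (by omega)
  have hsz0 : (1 : ℝ) ≤ p.size := by
    have : 0 < p.size := Nat.size_pos.2 hpp.pos
    exact_mod_cast this
  -- the general criterion
  have gen : ∀ θ : ℝ, 0 ≤ θ → θ ≤ 1 / 4 →
      (∀ l : ℕ, l.Prime → l ∣ p - 1 → ∃ b : ℕ, (b : ℝ) ≤ (p : ℝ) ^ (θ + ε / 2) ∧
        ((tv p b : ℕ) : ZMod p) ^ ((p - 1) / l) ≠ 1) → (p : ℝ) ^ (θ + ε) ≤ T →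
        Finds iniB (stpB e) (outB A (A + B + 1)) B (A + B + 1) p T := by
    intro θ hθ0 hθ1 hall hT
    have hyp : ⌊(p : ℝ) ^ (θ + ε / 2)⌋₊ < p := by
      have h1 : (p : ℝ) ^ (θ + ε / 2) < (p : ℝ) ^ (1 : ℝ) :=
        Real.rpow_lt_rpow_of_exponent_lt (by exact_mod_cast hpp.one_lt) (by linarith)
      rw [Real.rpow_one] at h1
      exact (Nat.floor_lt (by positivity)).2 h1
    refine finds_of hpp hyp he1 (hp₁ p (by omega) hpp) (hp₂ p (by omega)) (hp₃ p (by omega))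
      ?_ ?_
    · intro l hl hd _
      obtain ⟨b, hb1, hb2⟩ := hall l hl hd
      exact ⟨b, Nat.le_floor hb1, hb2⟩
    · refine le_trans ?_ hT
      have h1 : (p : ℝ) ^ (1 / (e : ℝ)) ≤ (p : ℝ) ^ (ε / 4) :=
        Real.rpow_le_rpow_of_exponent_le hp1 hee
      have h2 : (p : ℝ) ^ (ε / 4) ≤ (p : ℝ) ^ (θ + 3 / 4 * ε) :=
        Real.rpow_le_rpow_of_exponent_le hp1 (by linarith)
      have h3 : ((⌊(p : ℝ) ^ (θ + ε / 2)⌋₊ : ℕ) : ℝ) * p.size ≤
          (p : ℝ) ^ (θ + 3 / 4 * ε) := by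
        have h4 : (p : ℝ) ^ (θ + 3 / 4 * ε) = (p : ℝ) ^ (θ + ε / 2) * (p : ℝ) ^ (ε / 4) := by
          rw [← Real.rpow_add hp0]
          congr 1
          ring
        rw [h4]
        exact mul_le_mul (Nat.floor_le (by positivity)) (by linarith) (by positivity)
          (by positivity)
      have h5 : (p : ℝ) ^ (θ + ε) = (p : ℝ) ^ (θ + 3 / 4 * ε) * (p : ℝ) ^ (ε / 4) := by
        rw [← Real.rpow_add hp0]
        congr 1
        ring
      have h6 : (2 : ℝ) ≤ (p : ℝ) ^ (ε / 4) := by linarith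
      have h7 : (0 : ℝ) < (p : ℝ) ^ (θ + 3 / 4 * ε) := by positivity
      rw [h5]
      nlinarith
  have hxb : ∀ (l : ℕ) (θ : ℝ), l.Prime → l ∣ p - 1 → Easy p (ε / 2) l → 0 ≤ θ →
      ∃ b : ℕ, (b : ℝ) ≤ (p : ℝ) ^ (θ + ε / 2) ∧
        ((tv p b : ℕ) : ZMod p) ^ ((p - 1) / l) ≠ 1 := by
    intro l θ hl hd hE hθ
    obtain ⟨x, hx, hno⟩ := hE hd
    have hpw : x ^ ((p - 1) / l) ≠ 1 := by
      intro h
      obtain ⟨c, -, hc⟩ := Pool.Agent.Q265.PR.root_of p l hl hd x h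
      exact hno ⟨c, hc⟩
    rcases hx with rfl | ⟨i, hi1, hi2, rfl⟩
    · refine ⟨0, by push_cast; positivity, ?_⟩
      rw [tv_zero hpp]
      exact hpw
    · refine ⟨i, hi2.trans (Real.rpow_le_rpow_of_exponent_le hp1 (by linarith)), ?_⟩
      rw [tv_pos hi1]
      exact hpw
  have hexp : ∀ t : ℝ, 0 ≤ t → 0 ≤ 1 / (4 * Real.exp t) ∧ 1 / (4 * Real.exp t) ≤ 1 / 4 := by
    intro t ht
    refine ⟨by positivity, ?_⟩
    apply one_div_le_one_div_of_le (by norm_num)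
    have := Real.add_one_le_exp t
    linarith
  have genL : ∀ L : ℕ, 2 ≤ L → (∀ l : ℕ, l.Prime → l < L → Easy p (ε / 2) l) →
      (p : ℝ) ^ (1 / (4 * Real.exp (1 - 1 / (L : ℝ))) + ε) ≤ T →
      Finds iniB (stpB e) (outB A (A + B + 1)) B (A + B + 1) p T := by
    intro L hL hE hT
    have hLr : (2 : ℝ) ≤ L := by exact_mod_cast hL
    have hL1 : 0 ≤ 1 - 1 / (L : ℝ) := by
      have : 1 / (L : ℝ) ≤ 1 / 2 := one_div_le_one_div_of_le (by norm_num) hLr
      linarith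
    obtain ⟨hθ0, hθ1⟩ := hexp _ hL1
    refine gen _ hθ0 hθ1 (fun l hl hd => ?_) hT
    by_cases hlL : l < L
    · exact hxb l _ hl hd (hE l hl hlL) hθ0
    · obtain ⟨b, hb1, hb2, hb3⟩ := hp₅ p (by omega) hpp l hl hd
      refine ⟨b, hb2.trans (Real.rpow_le_rpow_of_exponent_le hp1 ?_), ?_⟩
      · have h1 : (L : ℝ) ≤ l := by exact_mod_cast not_lt.1 hlL
        have h2 : 1 / (l : ℝ) ≤ 1 / (L : ℝ) := one_div_le_one_div_of_le (by linarith) h1
        have h3 : 1 / (4 * Real.exp (1 - 1 / (l : ℝ))) ≤ 1 / (4 * Real.exp (1 - 1 / (L : ℝ))) := by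
          apply one_div_le_one_div_of_le (by positivity)
          have := Real.exp_le_exp.2 (show 1 - 1 / (L : ℝ) ≤ 1 - 1 / (l : ℝ) by linarith)
          linarith
        linarith
      · rw [tv_pos hb1]
        exact hb3
  have genK : (∀ l : ℕ, l.Prime → l < K → Easy p (ε / 2) l) → (p : ℝ) ^ ε ≤ T →
      Finds iniB (stpB e) (outB A (A + B + 1)) B (A + B + 1) p T := by
    intro hE hT
    refine gen 0 le_rfl (by norm_num) (fun l hl hd => ?_) (by rwa [zero_add])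
    by_cases hlK : l < K
    · exact hxb l _ hl hd (hE l hl hlK) le_rfl
    · obtain ⟨b, hb1, hb2, hb3⟩ := hp₆ p (by omega) hpp l hl (not_lt.1 hlK) hd
      refine ⟨b, by rwa [zero_add], ?_⟩
      rw [tv_pos hb1]
      exact hb3
  have h2pow : (2 : ℝ) ≤ (p : ℝ) ^ (ε / 2) := by
    have h1 : (p : ℝ) ^ (ε / 4) ≤ (p : ℝ) ^ (ε / 2) :=
      Real.rpow_le_rpow_of_exponent_le hp1 (by linarith)
    linarith
  have hp2 : p ≠ 2 := by omega
  refine ⟨?_, genL, ?_, genK, ?_⟩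
  · intro hT
    refine genL 2 le_rfl (fun l hl hl2 => absurd hl.two_le (by omega)) ?_
    have : (1 - 1 / ((2 : ℕ) : ℝ)) = 1 / 2 := by norm_num
    rw [this]
    exact hT
  · intro h8 hT
    refine genL 3 (by norm_num) (fun l hl hl3 => ?_) ?_
    · have : l = 2 := by have := hl.two_le; omega
      subst this
      exact easy_two hpp _ h2pow hp2 h8
    · have : (1 - 1 / ((3 : ℕ) : ℝ)) = 2 / 3 := by norm_num
      rw [this]
      exact hT
  · intro h8 hodd hT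
    refine genK (fun l hl hlK => ?_) hT
    by_cases hl2 : l = 2
    · subst hl2
      exact easy_two hpp _ h2pow hp2 h8
    · intro hd
      have := hodd l hl hl2 hd
      omega

end Pool.Agent.Q265.PR.E
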